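import Mathlib
import Pool.Agent.H54.Nim

set_option autoImplicit false

namespace Pool.Agent.Results.MP_68925f_co.Squares

open Pool.Agent.H54.Nim

/-- Nim multiplication exists, and the sequence of nim squares is not 2-regular. -/
theorem result :
    (∃ mul : ℕ → ℕ → ℕ, Rules mul) ∧ ∀ mul : ℕ → ℕ → ℕ, Rules mul →
      ¬ (Submodule.span ℤ {f : ℕ → ℤ | ∃ e r : ℕ, r < 2 ^ e ∧
          f = fun n => (mul (2 ^ e * n + r) (2 ^ e * n + r) : ℤ)}).FG := by
  refine ⟨exists_rules, fun mul h hS => ?_⟩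
  refine h.not_fg _ hS (fun e n => (mul (2 ^ e * n + 0) (2 ^ e * n + 0) : ℤ))
    (fun e => Submodule.subset_span ⟨e, 0, by positivity, rfl⟩) (fun i => 2 ^ i) ?_
  intro e i
  simp only [add_zero, pow_add]

end Pool.Agent.Results.MP_68925f_co.Squares
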